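import Pool.Agent.H65.AD.TargetsB
import Pool.Agent.H6.CN.BAS

/-!
# Row BMO of the board `adm_modules`: the moments of the mollifier sums
-/

set_option autoImplicit false

open MeasureTheory Set Filter
open scoped Real

namespace Pool.Agent.H46.ADM

open Pool.Agent.H31.CN Pool.Agent.H95.AD Pool.Agent.H50.CN Pool.Agent.H65.AD
open Pool.Agent.H6.CN (W Est est_one est_ve est_log est_add est_smul Ef_mul_le mr_mul abs_mr_le
  one_le_Ef cm_of_not_squarefree)

/-- the data of a moment -/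
theorem dat (hBK : T_BK) (hVS : T_VS) (hBDM : T_BDM) (i j : ℕ) (hij : i + j ≤ 3) :
    ∃ g a : ℕ → ℝ, Est g (i + j) a ∧ ∀ (c : ℕ → ℝ) (n₀ d : ℕ), 1 ≤ d →
      (∀ m, ¬ Squarefree m → c m = 0) →
      mo i j (∑ n ∈ (Finset.Icc 1 n₀).filter (fun n => Nat.Coprime n d),
        c (d * n) • ∏ p ∈ n.primeFactors, al p) =
      ∑ n ∈ (Finset.Icc 1 n₀).filter (fun n => Nat.Coprime n d),
        c (d * n) * 2 ^ n.primeFactors.card / n * g n := by
  have h1 := est_one hBK
  have hl1 := est_log h1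
  have hl2 := est_log hl1
  have hl3 := est_log hl2
  have hv := est_ve hVS
  have hvl := est_log hv
  have hi : i ≤ 3 := by omega
  have hj : j ≤ 3 := by omega
  interval_cases i <;> interval_cases j
  · exact ⟨_, _, h1, fun c n₀ d hd hc => by
      rw [(hBDM c n₀ d hd hc _ _ _ rfl rfl rfl).1]
      exact Finset.sum_congr rfl fun n _ => by ring⟩
  · exact ⟨_, _, est_smul (1 / 2) hl1, fun c n₀ d hd hc => by
      rw [(hBDM c n₀ d hd hc _ _ _ rfl rfl rfl).2.2.1, Finset.mul_sum]
      exact Finset.sum_congr rfl fun n _ => by ring⟩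
  · exact ⟨_, _, est_smul (1 / 4) (est_add hl2 hv), fun c n₀ d hd hc => by
      rw [(hBDM c n₀ d hd hc _ _ _ rfl rfl rfl).2.2.2.2.2.1, Finset.mul_sum]
      exact Finset.sum_congr rfl fun n _ => by ring⟩
  · exact ⟨_, _, est_smul (1 / 8) (est_add hl3 (est_smul 3 hvl)), fun c n₀ d hd hc => by
      rw [(hBDM c n₀ d hd hc _ _ _ rfl rfl rfl).2.2.2.2.2.2.2.1, Finset.mul_sum]
      exact Finset.sum_congr rfl fun n _ => by ring⟩
  · exact ⟨_, _, est_smul (1 / 2) hl1, fun c n₀ d hd hc => by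
      rw [(hBDM c n₀ d hd hc _ _ _ rfl rfl rfl).2.1, Finset.mul_sum]
      exact Finset.sum_congr rfl fun n _ => by ring⟩
  · exact ⟨_, _, est_smul (1 / 4) (est_add hl2 (est_smul (-1) hv)), fun c n₀ d hd hc => by
      rw [(hBDM c n₀ d hd hc _ _ _ rfl rfl rfl).2.2.2.1, Finset.mul_sum]
      exact Finset.sum_congr rfl fun n _ => by ring⟩
  · exact ⟨_, _, est_smul (1 / 8) (est_add hl3 (est_smul (-1) hvl)), fun c n₀ d hd hc => by
      rw [(hBDM c n₀ d hd hc _ _ _ rfl rfl rfl).2.2.2.2.2.2.2.2.2, Finset.mul_sum]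
      exact Finset.sum_congr rfl fun n _ => by ring⟩
  · exact absurd hij (by norm_num)
  · exact ⟨_, _, est_smul (1 / 4) (est_add hl2 hv), fun c n₀ d hd hc => by
      rw [(hBDM c n₀ d hd hc _ _ _ rfl rfl rfl).2.2.2.2.1, Finset.mul_sum]
      exact Finset.sum_congr rfl fun n _ => by ring⟩
  · exact ⟨_, _, est_smul (1 / 8) (est_add hl3 (est_smul (-1) hvl)), fun c n₀ d hd hc => by
      rw [(hBDM c n₀ d hd hc _ _ _ rfl rfl rfl).2.2.2.2.2.2.2.2.1, Finset.mul_sum]
      exact Finset.sum_congr rfl fun n _ => by ring⟩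
  · exact absurd hij (by norm_num)
  · exact absurd hij (by norm_num)
  · exact ⟨_, _, est_smul (1 / 8) (est_add hl3 (est_smul 3 hvl)), fun c n₀ d hd hc => by
      rw [(hBDM c n₀ d hd hc _ _ _ rfl rfl rfl).2.2.2.2.2.2.1, Finset.mul_sum]
      exact Finset.sum_congr rfl fun n _ => by ring⟩
  · exact absurd hij (by norm_num)
  · exact absurd hij (by norm_num)
  · exact absurd hij (by norm_num)

/-- the singular factor at further primes -/
theorem hq_mul (hHQ : T_HQ) : ∀ u N : ℕ, 1 ≤ N → 2 ∣ N → Squarefree u →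
    Nat.Coprime u N → Hq (u * N) ≤ Hq N * Ef u := by
  obtain ⟨C, hC, h⟩ := hHQ
  intro u
  induction u using Nat.recOnPrimeCoprime with
  | zero => intro N hN h2 hu; exact absurd hu not_squarefree_zero
  | prime_pow p k hp =>
    intro N hN h2 hu hc
    rcases Nat.eq_zero_or_pos k with rfl | hk
    · rw [pow_zero, one_mul]
      have : Ef 1 = 1 := by unfold Ef; simp
      rw [this, mul_one]
    · have hk1 : k = 1 := by
        have := (Nat.squarefree_pow_iff hp.one_lt.ne' hk.ne').mp hu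
        exact this.2
      subst hk1
      rw [pow_one] at hc ⊢
      have hpN : ¬ p ∣ N := (Nat.Prime.coprime_iff_not_dvd hp).mp hc
      have hp3 : 3 ≤ p := by
        rcases hp.two_le.eq_or_lt with h0 | h0
        · exact absurd (h0 ▸ h2) hpN
        · exact h0
      have hpR : (3 : ℝ) ≤ p := by exact_mod_cast hp3
      have h3 := (h N hN h2).2.2.1 p hp hpN
      have hpos := (h N hN h2).1
      rw [mul_comm p N]
      have hE : Ef p = 1 + 30 / Real.sqrt p := by
        unfold Ef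
        rw [hp.primeFactors, Finset.prod_singleton]
      have hsq : Real.sqrt p ≤ p := by
        rw [Real.sqrt_le_iff]
        constructor
        · linarith
        · nlinarith
      have hs0 : 0 < Real.sqrt p := Real.sqrt_pos.mpr (by linarith)
      have hd : (0 : ℝ) < 1 - 2 / p := by
        rw [sub_pos, div_lt_one (by linarith)]
        linarith
      have h4 : 1 ≤ (1 + 30 / Real.sqrt p) * (1 - 2 / (p : ℝ)) := by
        have e : (1 + 30 / Real.sqrt p) * (1 - 2 / (p : ℝ)) =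
            1 + (30 * ((p : ℝ) - 2) - 2 * Real.sqrt p) / (Real.sqrt p * p) := by
          have : (p : ℝ) ≠ 0 := by linarith
          field_simp
          ring
        rw [e]
        have : 0 ≤ (30 * ((p : ℝ) - 2) - 2 * Real.sqrt p) / (Real.sqrt p * p) := by
          apply div_nonneg
          · linarith
          · positivity
        linarith
      rw [hE]
      have h5 : Hq N = Hq (N * p) * (1 - 2 / p) := h3.symm
      have hHp : 0 < Hq (N * p) := by
        by_contra hneg
        push Not at hneg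
        have : Hq (N * p) * (1 - 2 / p) ≤ 0 := mul_nonpos_of_nonpos_of_nonneg hneg hd.le
        linarith
      calc Hq (N * p) = Hq (N * p) * 1 := by ring
        _ ≤ Hq (N * p) * ((1 + 30 / Real.sqrt p) * (1 - 2 / (p : ℝ))) :=
          mul_le_mul_of_nonneg_left h4 hHp.le
        _ = Hq (N * p) * (1 - 2 / p) * (1 + 30 / Real.sqrt p) := by ring
        _ = _ := by rw [← h5]
  | coprime a b ha hb hab iha ihb =>
    intro N hN h2 hu hc
    have hua : Squarefree a := hu.squarefree_of_dvd (Dvd.intro _ rfl)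
    have hub : Squarefree b := hu.squarefree_of_dvd (Dvd.intro_left _ rfl)
    have hca : Nat.Coprime a N := Nat.Coprime.coprime_mul_right hc
    have hcb : Nat.Coprime b N := Nat.Coprime.coprime_mul_left hc
    have h3 := iha (b * N) (Nat.mul_pos (by omega) hN) (Dvd.dvd.mul_left h2 b) hua
      (Nat.Coprime.mul_right hab hca)
    have h4 := ihb N hN h2 hub hcb
    have hE : Ef (a * b) = Ef a * Ef b := by
      unfold Ef
      rw [hab.primeFactors_mul, Finset.prod_union hab.disjoint_primeFactors]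
    have h5 := one_le_Ef a
    rw [mul_assoc, hE]
    calc Hq (a * (b * N)) ≤ Hq (b * N) * Ef a := h3
      _ ≤ Hq N * Ef b * Ef a := mul_le_mul_of_nonneg_right h4 (by linarith)
      _ = _ := by ring

/-- the sum over the mollifier in terms of the weighted smoothed sums -/
theorem sum_eq' (g : ℕ → ℝ) (P : Polynomial ℝ) (N : ℕ) (M : ℝ) (w s d : ℕ) (hM : 2 ≤ M)
    (hd : 1 ≤ d) (hs : 1 ≤ s) (hsw : s ∣ w) (hdw : Nat.Coprime d w) (hwN : Nat.Coprime w N)
    (hdN : Nat.Coprime d N) :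
    ∑ n ∈ (Finset.Icc 1 ⌊M⌋₊).filter (fun n => Nat.Coprime n d),
      cw P M N w s (d * n) * 2 ^ n.primeFactors.card / n * g n =
    mr (s * d) * ∑ k ∈ Finset.range (P.natDegree + 1),
      P.coeff k * (Real.log M ^ k)⁻¹ * W g k (d * w * N) (M / (s * d : ℕ)) := by
  have hsd : 1 ≤ s * d := Nat.mul_pos hs hd
  have hd0 : (0 : ℝ) < (s * d : ℕ) := by exact_mod_cast hsd
  have hd1 : (1 : ℝ) ≤ (s * d : ℕ) := by exact_mod_cast hsd
  have hM0 : 0 < M := by linarith
  have hsN : Nat.Coprime s N := Nat.Coprime.coprime_dvd_left hsw hwN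
  have hsub : (Finset.Icc 1 ⌊M / (s * d : ℕ)⌋₊).filter (fun n => Nat.Coprime n (d * w * N)) ⊆
      (Finset.Icc 1 ⌊M⌋₊).filter (fun n => Nat.Coprime n d) := by
    intro n hn
    rw [Finset.mem_filter, Finset.mem_Icc] at hn ⊢
    refine ⟨⟨hn.1.1, hn.1.2.trans (Nat.floor_le_floor ?_)⟩,
      Nat.Coprime.coprime_mul_right_right (Nat.Coprime.coprime_mul_right_right hn.2)⟩
    exact div_le_self hM0.le hd1
  rw [← Finset.sum_subset hsub]
  · have e1 : ∀ n ∈ (Finset.Icc 1 ⌊M / (s * d : ℕ)⌋₊).filter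
          (fun n => Nat.Coprime n (d * w * N)),
        cw P M N w s (d * n) * 2 ^ n.primeFactors.card / n * g n =
        ∑ k ∈ Finset.range (P.natDegree + 1), mr (s * d) * (P.coeff k * (Real.log M ^ k)⁻¹ *
          (mr n * 2 ^ n.primeFactors.card / n * g n *
            Real.log (M / (s * d : ℕ) / n) ^ k)) := by
      intro n hn
      rw [Finset.mem_filter, Finset.mem_Icc] at hn
      obtain ⟨⟨hn1, hn2⟩, hn3⟩ := hn
      have hndw : Nat.Coprime n (d * w) := Nat.Coprime.coprime_mul_right_right hn3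
      have hnd : Nat.Coprime n d := Nat.Coprime.coprime_mul_right_right hndw
      have hnw : Nat.Coprime n w := Nat.Coprime.coprime_mul_left_right hndw
      have hns : Nat.Coprime n s := Nat.Coprime.coprime_dvd_right hsw hnw
      have hnN : Nat.Coprime n N := Nat.Coprime.coprime_mul_left_right hn3
      have hn0 : (0 : ℝ) < n := by exact_mod_cast hn1
      have hle : (n : ℝ) ≤ M / (s * d : ℕ) := (Nat.le_floor_iff (by positivity)).1 hn2
      have hle2 : ((s * (d * n) : ℕ) : ℝ) ≤ M := by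
        rw [le_div_iff₀ hd0] at hle
        push_cast at hle ⊢
        linarith
      have hcop : Nat.Coprime (s * (d * n)) N :=
        Nat.Coprime.mul_left hsN (Nat.Coprime.mul_left hdN hnN)
      have hmr : mr (s * (d * n)) = mr (s * d) * mr n := by
        rw [← mul_assoc]
        exact mr_mul (Nat.Coprime.mul_left hns.symm hnd.symm)
      have e2 : cw P M N w s (d * n) = mr (s * d) * mr n *
          ∑ k ∈ Finset.range (P.natDegree + 1),
            P.coeff k * (Real.log (M / (s * d : ℕ) / n) / Real.log M) ^ k := by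
        unfold cw cm
        rw [if_pos (Nat.Coprime.mul_left hdw hnw), if_pos ⟨hle2, hcop⟩, hmr,
          Polynomial.eval_eq_sum_range]
        push_cast
        rw [div_div, ← mul_assoc]
      rw [e2, Finset.mul_sum, Finset.sum_mul, Finset.sum_div, Finset.sum_mul]
      refine Finset.sum_congr rfl fun k _ => ?_
      rw [div_pow]
      ring
    rw [Finset.sum_congr rfl e1, Finset.sum_comm, Finset.mul_sum]
    refine Finset.sum_congr rfl fun k _ => ?_
    unfold W
    rw [← Finset.mul_sum, ← Finset.mul_sum]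
  · intro n hn hn'
    have : cw P M N w s (d * n) = 0 := by
      unfold cw
      split_ifs with hc
      · unfold cm
        rw [if_neg]
        rintro ⟨h1, h2⟩
        apply hn'
        rw [Finset.mem_filter, Finset.mem_Icc] at hn ⊢
        have hdnN : Nat.Coprime (d * n) N := Nat.Coprime.coprime_mul_left h2
        have hnN : Nat.Coprime n N := Nat.Coprime.coprime_mul_left hdnN
        have hnw : Nat.Coprime n w := Nat.Coprime.coprime_mul_left hc
        refine ⟨⟨hn.1.1, ?_⟩, Nat.Coprime.mul_right (Nat.Coprime.mul_right hn.2 hnw) hnN⟩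
        rw [Nat.le_floor_iff (by positivity), le_div_iff₀ hd0]
        push_cast at h1 ⊢
        linarith
      · rfl
    rw [this]
    ring

/-- the bound for a moment in the main case -/
theorem core' (hHQ : T_HQ) {g : ℕ → ℝ} {e : ℕ} {a : ℕ → ℝ} (h : Est g e a) (he : e ≤ 3)
    (P : Polynomial ℝ) (hX : Polynomial.X ^ 5 ∣ P) (N : ℕ) (hN : 1 ≤ N) (h2 : 2 ∣ N) :
    ∃ C : ℝ, 0 < C ∧ ∀ (M : ℝ) (w s d : ℕ), 2 ≤ M → Squarefree w → Nat.Coprime w N → s ∣ w →
      Squarefree d → Nat.Coprime d w → Nat.Coprime d N → ((s * d : ℕ) : ℝ) ≤ M →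
      |∑ n ∈ (Finset.Icc 1 ⌊M⌋₊).filter (fun n => Nat.Coprime n d),
        cw P M N w s (d * n) * 2 ^ n.primeFactors.card / n * g n| ≤
      (∑ k ∈ Finset.range (P.natDegree + 1), |P.coeff k| * |a k|) *
        Hq N * Ef (d * w) * Real.log M ^ ((e : ℤ) - 2) +
      C * Ef (d * w) ^ 2 * Real.log M ^ ((e : ℤ) - 3) := by
  have h' : ∀ k : ℕ, ∃ C : ℝ, 0 < C ∧ (5 ≤ k → ∀ (q : ℕ) (y : ℝ), 1 ≤ q → 2 ∣ q → 1 ≤ y →
    |W g k q y - Hq q * a k * Real.log y ^ (k + e - 2)| ≤
      C * Ef q ^ 2 * (1 + Real.log y) ^ (k + e - 3)) := by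
    intro k
    by_cases hk : 5 ≤ k
    · obtain ⟨C, hC, h3⟩ := h k hk
      exact ⟨C, hC, fun _ => h3⟩
    · exact ⟨1, one_pos, fun h => absurd h hk⟩
  choose Cf hCf0 hCf using h'
  have hcoef : ∀ k, k < 5 → P.coeff k = 0 := Polynomial.X_pow_dvd_iff.1 hX
  refine ⟨∑ k ∈ Finset.range (P.natDegree + 1), |P.coeff k| * (Cf k * Ef N ^ 2 * 3 ^ k) + 1,
    ?_, ?_⟩
  · have : 0 ≤ ∑ k ∈ Finset.range (P.natDegree + 1), |P.coeff k| * (Cf k * Ef N ^ 2 * 3 ^ k) :=
      Finset.sum_nonneg fun k _ => by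
        have := hCf0 k
        positivity
    linarith
  intro M w s d hM hw hwN hsw hdsq hdw hdN hsdM
  have hd : 1 ≤ d := Nat.pos_of_ne_zero hdsq.ne_zero
  have hw1 : 1 ≤ w := Nat.pos_of_ne_zero hw.ne_zero
  have hs : 1 ≤ s := Nat.pos_of_dvd_of_pos hsw hw1
  have hsd : 1 ≤ s * d := Nat.mul_pos hs hd
  have hsd0 : (0 : ℝ) < (s * d : ℕ) := by exact_mod_cast hsd
  have hsd1 : (1 : ℝ) ≤ (s * d : ℕ) := by exact_mod_cast hsd
  have hM0 : 0 < M := by linarith
  have hdwsq : Squarefree (d * w) := (Nat.squarefree_mul hdw).mpr ⟨hdsq, hw⟩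
  have hl : 1 / 2 < Real.log M := by
    have h1 : Real.log 2 ≤ Real.log M := Real.log_le_log (by norm_num) hM
    have h2 := Real.log_two_gt_d9
    linarith
  have hl0 : 0 < Real.log M := by linarith
  have hy : 1 ≤ M / (s * d : ℕ) := (one_le_div hsd0).2 hsdM
  obtain ⟨U, hU⟩ : ∃ U, U = Real.log (M / (s * d : ℕ)) := ⟨_, rfl⟩
  obtain ⟨l, hldef⟩ : ∃ l, l = Real.log M := ⟨_, rfl⟩
  rw [← hldef] at hl hl0
  have hU0 : 0 ≤ U := by rw [hU]; exact Real.log_nonneg hy
  have hUl : U ≤ l := by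
    rw [hU, hldef]
    apply Real.log_le_log (by positivity)
    exact div_le_self hM0.le hsd1
  have h3l : 1 + U ≤ 3 * l := by linarith
  have hE1 := one_le_Ef (d * w)
  have hE2 := one_le_Ef N
  have hHN : Hq (d * w * N) ≤ Hq N * Ef (d * w) := hq_mul hHQ (d * w) N hN h2 hdwsq
    (Nat.Coprime.mul_left hdN hwN)
  have hHp : 0 < Hq (d * w * N) := by
    obtain ⟨C, _, h⟩ := hHQ
    exact (h (d * w * N) (Nat.mul_pos (Nat.mul_pos hd hw1) hN) (Dvd.dvd.mul_left h2 _)).1
  rw [sum_eq' g P N M w s d hM hd hs hsw hdw hwN hdN, abs_mul, ← hldef]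
  have e3 : ∀ k ∈ Finset.range (P.natDegree + 1),
      |P.coeff k * (l ^ k)⁻¹ * W g k (d * w * N) (M / (s * d : ℕ))| ≤
      |P.coeff k| * |a k| * (Hq N * Ef (d * w) * l ^ ((e : ℤ) - 2)) +
      |P.coeff k| * (Cf k * Ef N ^ 2 * 3 ^ k) * (Ef (d * w) ^ 2 * l ^ ((e : ℤ) - 3)) := by
    intro k _
    rcases Nat.lt_or_ge k 5 with hk | hk
    · rw [hcoef k hk]
      simp
    · rw [abs_mul, abs_mul, abs_of_pos (a := (l ^ k)⁻¹) (by positivity), mul_assoc,
        mul_assoc |P.coeff k|, mul_assoc |P.coeff k|, ← mul_add]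
      refine mul_le_mul_of_nonneg_left ?_ (abs_nonneg _)
      have b1 := hCf k hk (d * w * N) (M / (s * d : ℕ))
        (Nat.mul_pos (Nat.mul_pos hd hw1) hN) (Dvd.dvd.mul_left h2 (d * w)) hy
      rw [← hU] at b1
      have b2 : Ef (d * w * N) ≤ Ef (d * w) * Ef N := Ef_mul_le (d * w) N
        (Nat.mul_pos hd hw1).ne' (by omega)
      have b3 : Ef (d * w * N) ^ 2 ≤ (Ef (d * w) * Ef N) ^ 2 :=
        pow_le_pow_left₀ (by linarith [one_le_Ef (d * w * N)]) b2 2
      have b4 : (1 + U) ^ (k + e - 3) ≤ 3 ^ k * l ^ (k + e - 3) := by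
        calc (1 + U) ^ (k + e - 3) ≤ (3 * l) ^ (k + e - 3) :=
              pow_le_pow_left₀ (by linarith) h3l _
          _ = 3 ^ (k + e - 3) * l ^ (k + e - 3) := mul_pow _ _ _
          _ ≤ _ := by
            refine mul_le_mul_of_nonneg_right ?_ (by positivity)
            exact pow_le_pow_right₀ (by norm_num) (by omega)
      have b5 : U ^ (k + e - 2) ≤ l ^ (k + e - 2) := pow_le_pow_left₀ hU0 hUl _
      have e4 : l ^ ((e : ℤ) - 3) = (l ^ k)⁻¹ * l ^ (k + e - 3) := by
        rw [← zpow_natCast l (k + e - 3), ← zpow_natCast l k, ← zpow_neg, ← zpow_add₀ hl0.ne']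
        congr 1
        omega
      have e5 : l ^ ((e : ℤ) - 2) = (l ^ k)⁻¹ * l ^ (k + e - 2) := by
        rw [← zpow_natCast l (k + e - 2), ← zpow_natCast l k, ← zpow_neg, ← zpow_add₀ hl0.ne']
        congr 1
        omega
      have hC0 := hCf0 k
      have hU1 : 0 ≤ (1 + U) ^ (k + e - 3) := by positivity
      have hmain : |Hq (d * w * N) * a k * U ^ (k + e - 2)| ≤
          Hq N * Ef (d * w) * |a k| * l ^ (k + e - 2) := by
        rw [abs_mul, abs_mul, abs_of_pos hHp, abs_of_nonneg (pow_nonneg hU0 _)]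
        exact mul_le_mul (mul_le_mul_of_nonneg_right hHN (abs_nonneg _)) b5
          (pow_nonneg hU0 _) (mul_nonneg (hHp.le.trans hHN) (abs_nonneg _))
      have htot : |W g k (d * w * N) (M / (s * d : ℕ))| ≤
          Hq N * Ef (d * w) * |a k| * l ^ (k + e - 2) +
            Cf k * (Ef (d * w) * Ef N) ^ 2 * (3 ^ k * l ^ (k + e - 3)) := by
        have h5 : W g k (d * w * N) (M / (s * d : ℕ)) =
            Hq (d * w * N) * a k * U ^ (k + e - 2) +
            (W g k (d * w * N) (M / (s * d : ℕ)) -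
              Hq (d * w * N) * a k * U ^ (k + e - 2)) := by ring
        rw [h5]
        refine (abs_add_le _ _).trans (add_le_add hmain (b1.trans ?_))
        exact mul_le_mul (mul_le_mul_of_nonneg_left b3 hC0.le) b4 hU1 (by positivity)
      calc (l ^ k)⁻¹ * |W g k (d * w * N) (M / (s * d : ℕ))| ≤
          (l ^ k)⁻¹ * (Hq N * Ef (d * w) * |a k| * l ^ (k + e - 2) +
            Cf k * (Ef (d * w) * Ef N) ^ 2 * (3 ^ k * l ^ (k + e - 3))) :=
            mul_le_mul_of_nonneg_left htot (by positivity)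
        _ = _ := by
            rw [e4, e5]
            ring
  have e5 := (Finset.abs_sum_le_sum_abs (fun k => P.coeff k * (l ^ k)⁻¹ *
        W g k (d * w * N) (M / (s * d : ℕ)))
        (Finset.range (P.natDegree + 1))).trans (Finset.sum_le_sum e3)
  rw [Finset.sum_add_distrib, ← Finset.sum_mul, ← Finset.sum_mul] at e5
  have e6 : 0 ≤ Ef (d * w) ^ 2 * l ^ ((e : ℤ) - 3) := by positivity
  have e7 := abs_mr_le (s * d)
  have e9 := abs_nonneg (∑ k ∈ Finset.range (P.natDegree + 1),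
    P.coeff k * (l ^ k)⁻¹ * W g k (d * w * N) (M / (s * d : ℕ)))
  refine (mul_le_of_le_one_left e9 e7).trans (e5.trans ?_)
  have e10 : (∑ k ∈ Finset.range (P.natDegree + 1), |P.coeff k| * |a k|) *
      (Hq N * Ef (d * w) * l ^ ((e : ℤ) - 2)) =
      (∑ k ∈ Finset.range (P.natDegree + 1), |P.coeff k| * |a k|) * Hq N * Ef (d * w) *
        l ^ ((e : ℤ) - 2) := by ring
  rw [e10, add_mul (∑ k ∈ Finset.range (P.natDegree + 1), |P.coeff k| *
    (Cf k * Ef N ^ 2 * 3 ^ k)) 1, add_mul, mul_assoc _ (Ef (d * w) ^ 2) (l ^ ((e : ℤ) - 3))]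
  have : 0 ≤ 1 * Ef (d * w) ^ 2 * l ^ ((e : ℤ) - 3) := by positivity
  linarith

theorem Bw_zero (P : Polynomial ℝ) (M : ℝ) (N w s d : ℕ)
    (h : ∀ n, 1 ≤ n → cw P M N w s (d * n) = 0) : Bw P M N w s d = 0 := by
  unfold Bw
  refine Finset.sum_eq_zero fun n hn => ?_
  rw [Finset.mem_filter, Finset.mem_Icc] at hn
  rw [h n hn.1.1, zero_smul]

/-- **Row BMO.** -/
theorem pf_BMO (hBK : T_BK) (hVS : T_VS) (hBDM : T_BDM) (hHQ : T_HQ) : T_BMO := by
  intro P hX
  have key : ∀ i j : ℕ, ∃ g a : ℕ → ℝ, i + j ≤ 3 → Est g (i + j) a ∧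
      ∀ (c : ℕ → ℝ) (n₀ d : ℕ), 1 ≤ d → (∀ m, ¬ Squarefree m → c m = 0) →
      mo i j (∑ n ∈ (Finset.Icc 1 n₀).filter (fun n => Nat.Coprime n d),
        c (d * n) • ∏ p ∈ n.primeFactors, al p) =
      ∑ n ∈ (Finset.Icc 1 n₀).filter (fun n => Nat.Coprime n d),
        c (d * n) * 2 ^ n.primeFactors.card / n * g n := by
    intro i j
    by_cases hij : i + j ≤ 3
    · obtain ⟨g, a, h⟩ := dat hBK hVS hBDM i j hij
      exact ⟨g, a, fun _ => h⟩
    · exact ⟨fun _ => 0, fun _ => 0, fun h => absurd h hij⟩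
  choose g a hga using key
  have hKn : ∀ i j : ℕ, 0 ≤ ∑ k ∈ Finset.range (P.natDegree + 1), |P.coeff k| * |a i j k| :=
    fun i j => Finset.sum_nonneg fun k _ => by positivity
  refine ⟨∑ i ∈ Finset.range 4, ∑ j ∈ Finset.range 4,
    ∑ k ∈ Finset.range (P.natDegree + 1), |P.coeff k| * |a i j k| + 1, ?_, ?_⟩
  · have : 0 ≤ ∑ i ∈ Finset.range 4, ∑ j ∈ Finset.range 4,
        ∑ k ∈ Finset.range (P.natDegree + 1), |P.coeff k| * |a i j k| :=
      Finset.sum_nonneg fun i _ => Finset.sum_nonneg fun j _ => hKn i j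
    linarith
  intro N hN h2 _
  have key2 : ∀ i j : ℕ, ∃ C : ℝ, 0 < C ∧ (i + j ≤ 3 → ∀ (M : ℝ) (w s d : ℕ), 2 ≤ M →
      Squarefree w → Nat.Coprime w N → s ∣ w → Squarefree d → Nat.Coprime d w →
      Nat.Coprime d N → ((s * d : ℕ) : ℝ) ≤ M →
      |∑ n ∈ (Finset.Icc 1 ⌊M⌋₊).filter (fun n => Nat.Coprime n d),
        cw P M N w s (d * n) * 2 ^ n.primeFactors.card / n * g i j n| ≤
      (∑ k ∈ Finset.range (P.natDegree + 1), |P.coeff k| * |a i j k|) *
        Hq N * Ef (d * w) * Real.log M ^ (((i + j : ℕ) : ℤ) - 2) +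
      C * Ef (d * w) ^ 2 * Real.log M ^ (((i + j : ℕ) : ℤ) - 3)) := by
    intro i j
    by_cases hij : i + j ≤ 3
    · obtain ⟨C, hC, h⟩ := core' hHQ (hga i j hij).1 hij P hX N hN h2
      exact ⟨C, hC, fun _ => h⟩
    · exact ⟨1, one_pos, fun h => absurd h hij⟩
  choose Cf hC0 hC using key2
  refine ⟨∑ i ∈ Finset.range 4, ∑ j ∈ Finset.range 4, Cf i j, ?_, ?_⟩
  · exact Finset.sum_pos (fun i _ => Finset.sum_pos (fun j _ => hC0 i j) ⟨0, by simp⟩)
      ⟨0, by simp⟩
  intro M w s d i j hM hw hwN hsw hd hij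
  have hl0 : 0 < Real.log M := Real.log_pos (by linarith)
  have hHN : 0 < Hq N := by
    obtain ⟨C, _, h⟩ := hHQ
    exact (h N hN h2).1
  have hE := one_le_Ef (d * w)
  have hEp : 0 < Ef (d * w) := by linarith
  have h3 : Cf i j ≤ ∑ i ∈ Finset.range 4, ∑ j ∈ Finset.range 4, Cf i j := by
    refine le_trans ?_ (Finset.single_le_sum
      (f := fun i => ∑ j ∈ Finset.range 4, Cf i j)
      (fun i _ => Finset.sum_nonneg fun j _ => (hC0 i j).le)
      (Finset.mem_range.2 (by omega : i < 4)))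
    exact Finset.single_le_sum (f := fun j => Cf i j) (fun j _ => (hC0 i j).le)
      (Finset.mem_range.2 (by omega : j < 4))
  have h4 : ∑ k ∈ Finset.range (P.natDegree + 1), |P.coeff k| * |a i j k| ≤
      ∑ i ∈ Finset.range 4, ∑ j ∈ Finset.range 4,
        ∑ k ∈ Finset.range (P.natDegree + 1), |P.coeff k| * |a i j k| := by
    refine le_trans ?_ (Finset.single_le_sum
      (f := fun i => ∑ j ∈ Finset.range 4,
        ∑ k ∈ Finset.range (P.natDegree + 1), |P.coeff k| * |a i j k|)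
      (fun i _ => Finset.sum_nonneg fun j _ => hKn i j)
      (Finset.mem_range.2 (by omega : i < 4)))
    exact Finset.single_le_sum
      (f := fun j => ∑ k ∈ Finset.range (P.natDegree + 1), |P.coeff k| * |a i j k|)
      (fun j _ => hKn i j) (Finset.mem_range.2 (by omega : j < 4))
  have z1 : 0 < Real.log M ^ ((i : ℤ) + j - 2) := zpow_pos hl0 _
  have z2 : 0 < Real.log M ^ ((i : ℤ) + j - 3) := zpow_pos hl0 _
  obtain ⟨K, hK⟩ : ∃ K, K = ∑ i ∈ Finset.range 4, ∑ j ∈ Finset.range 4,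
        ∑ k ∈ Finset.range (P.natDegree + 1), |P.coeff k| * |a i j k| := ⟨_, rfl⟩
  obtain ⟨C, hCd⟩ : ∃ C, C = ∑ i ∈ Finset.range 4, ∑ j ∈ Finset.range 4, Cf i j := ⟨_, rfl⟩
  have hK0 : 0 ≤ K := by
    rw [hK]
    exact Finset.sum_nonneg fun i _ => Finset.sum_nonneg fun j _ => hKn i j
  have hCp : 0 < C := by
    rw [hCd]
    exact Finset.sum_pos (fun i _ => Finset.sum_pos (fun j _ => hC0 i j) ⟨0, by simp⟩)
      ⟨0, by simp⟩
  rw [← hK, ← hCd]
  rw [← hK] at h4
  rw [← hCd] at h3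
  have hR : 0 ≤ (K + 1) * Hq N * Ef (d * w) * Real.log M ^ ((i : ℤ) + j - 2) +
      C * Ef (d * w) ^ 2 * Real.log M ^ ((i : ℤ) + j - 3) := by positivity
  by_cases hdw : Nat.Coprime d w
  · by_cases hdN : Nat.Coprime d N
    · by_cases hsdM : ((s * d : ℕ) : ℝ) ≤ M
      · have h5 := hC i j hij M w s d hM hw hwN hsw hd hdw hdN hsdM
        have h6 := (hga i j hij).2 (cw P M N w s) ⌊M⌋₊ d (Nat.pos_of_ne_zero hd.ne_zero)
          (fun m hm => by
            unfold cw
            split_ifs with hc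
            · exact cm_of_not_squarefree P M N (s * m)
                (fun h => hm (h.squarefree_of_dvd (Dvd.intro_left _ rfl)))
            · rfl)
        have h7 : mo i j (Bw P M N w s d) =
            ∑ n ∈ (Finset.Icc 1 ⌊M⌋₊).filter (fun n => Nat.Coprime n d),
              cw P M N w s (d * n) * 2 ^ n.primeFactors.card / n * g i j n := h6
        rw [h7]
        push_cast at h5
        refine h5.trans (add_le_add ?_ ?_)
        · refine mul_le_mul_of_nonneg_right (mul_le_mul_of_nonneg_right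
            (mul_le_mul_of_nonneg_right ?_ hHN.le) hEp.le) z1.le
          linarith
        · exact mul_le_mul_of_nonneg_right (mul_le_mul_of_nonneg_right h3 (by positivity)) z2.le
      · rw [Bw_zero P M N w s d ?_, map_zero, abs_zero]
        · exact hR
        · intro n hn
          unfold cw
          split_ifs with hc
          · unfold cm
            rw [if_neg]
            rintro ⟨h1, -⟩
            apply hsdM
            refine le_trans ?_ h1
            have : s * d ≤ s * (d * n) := by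
              rw [← mul_assoc]
              exact Nat.le_mul_of_pos_right _ hn
            exact_mod_cast this
          · rfl
    · rw [Bw_zero P M N w s d ?_, map_zero, abs_zero]
      · exact hR
      · intro n hn
        unfold cw
        split_ifs with hc
        · unfold cm
          rw [if_neg]
          rintro ⟨-, h1⟩
          exact hdN (Nat.Coprime.coprime_mul_right (Nat.Coprime.coprime_mul_left h1))
        · rfl
  · rw [Bw_zero P M N w s d ?_, map_zero, abs_zero]
    · exact hR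
    · intro n hn
      unfold cw
      rw [if_neg]
      intro hc
      exact hdw (Nat.Coprime.coprime_mul_right hc)

end Pool.Agent.H46.ADM
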