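import Pool.Agent.H95.AD.TargetsU

/-!
# Module BSM of the board `adu_modules`: the sum over the blocks
-/

set_option autoImplicit false

namespace Pool.Agent.H46.AD

open Pool.Agent.H31.CN Pool.Agent.H95.AD

/-- the part of the block bound that depends on `d` -/
noncomputable def gg (ε a R : ℝ) (d : ℕ) : ℝ :=
  if 1 ≤ d then (1 + R / Real.sqrt ((d : ℝ) * a)) * (d : ℝ) ^ (-((1 + ε) / 2)) *
    Real.exp (-((d : ℝ) / (8 * R))) else 0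

lemma gg_nonneg (ε a R : ℝ) (hR : 0 < R) (d : ℕ) : 0 ≤ gg ε a R d := by
  unfold gg
  split_ifs
  · positivity
  · exact le_rfl

lemma gg_le (ε a R : ℝ) (ha : 0 < a) (hR : 0 < R) (n : ℕ) :
    gg ε a R (n + 1) ≤ ((n : ℝ) + 1) ^ (-((1 + ε) / 2)) *
      Real.exp (-(1 / (8 * R) * ((n : ℝ) + 1))) +
      R / Real.sqrt a * ((n : ℝ) + 1) ^ (-(1 + ε / 2)) := by
  unfold gg
  rw [if_pos (Nat.le_add_left 1 n)]
  push_cast
  have hn : (0 : ℝ) < (n : ℝ) + 1 := by positivity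
  have e1 : Real.exp (-(((n : ℝ) + 1) / (8 * R))) = Real.exp (-(1 / (8 * R) * ((n : ℝ) + 1))) := by
    congr 1; ring
  have e2 : R / Real.sqrt (((n : ℝ) + 1) * a) * ((n : ℝ) + 1) ^ (-((1 + ε) / 2)) =
      R / Real.sqrt a * ((n : ℝ) + 1) ^ (-(1 + ε / 2)) := by
    rw [Real.sqrt_mul hn.le]
    have e3 : ((n : ℝ) + 1) ^ (-(1 + ε / 2)) =
        ((n : ℝ) + 1) ^ (-((1 + ε) / 2)) / Real.sqrt ((n : ℝ) + 1) := by
      rw [Real.sqrt_eq_rpow, ← Real.rpow_sub hn]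
      congr 1; ring
    rw [e3]
    field_simp
  rw [e1]
  have hE : Real.exp (-(1 / (8 * R) * ((n : ℝ) + 1))) ≤ 1 := by
    rw [Real.exp_le_one_iff]
    have : 0 ≤ 1 / (8 * R) * ((n : ℝ) + 1) := by positivity
    linarith
  have hX : 0 ≤ R / Real.sqrt a * ((n : ℝ) + 1) ^ (-(1 + ε / 2)) := by positivity
  calc (1 + R / Real.sqrt (((n : ℝ) + 1) * a)) * ((n : ℝ) + 1) ^ (-((1 + ε) / 2)) *
        Real.exp (-(1 / (8 * R) * ((n : ℝ) + 1)))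
      = ((n : ℝ) + 1) ^ (-((1 + ε) / 2)) * Real.exp (-(1 / (8 * R) * ((n : ℝ) + 1))) +
        (R / Real.sqrt (((n : ℝ) + 1) * a) * ((n : ℝ) + 1) ^ (-((1 + ε) / 2))) *
          Real.exp (-(1 / (8 * R) * ((n : ℝ) + 1))) := by ring
    _ ≤ _ := by
        rw [e2]
        have := mul_le_mul_of_nonneg_left hE hX
        rw [mul_one] at this
        linarith

lemma gg_sum (ε C1 C2 : ℝ) (hC1 : ∀ x : ℝ, 0 < x →
      Summable (fun n : ℕ => ((n : ℝ) + 1) ^ (-((1 + ε) / 2)) *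
        Real.exp (-(x * ((n : ℝ) + 1)))) ∧
      ∑' n : ℕ, ((n : ℝ) + 1) ^ (-((1 + ε) / 2)) * Real.exp (-(x * ((n : ℝ) + 1))) ≤
        C1 * x ^ (-(1 / 2) : ℝ))
    (hs : Summable (fun n : ℕ => ((n : ℝ) + 1) ^ (-(1 + ε / 2))))
    (hC2 : ∑' n : ℕ, ((n : ℝ) + 1) ^ (-(1 + ε / 2)) = C2) (a R : ℝ) (ha : 0 < a) (hR : 0 < R) :
    Summable (gg ε a R) ∧
      ∑' d : ℕ, gg ε a R d ≤ C1 * Real.sqrt 8 * Real.sqrt R + R / Real.sqrt a * C2 := by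
  have hx : 0 < 1 / (8 * R) := by positivity
  obtain ⟨h1, h2⟩ := hC1 (1 / (8 * R)) hx
  have h3 := h1.add (hs.mul_left (R / Real.sqrt a))
  have h4 : Summable (fun n : ℕ => gg ε a R (n + 1)) :=
    Summable.of_nonneg_of_le (fun n => gg_nonneg ε a R hR _) (fun n => gg_le ε a R ha hR n) h3
  have h5 : Summable (gg ε a R) := (summable_nat_add_iff 1).mp h4
  refine ⟨h5, ?_⟩
  rw [h5.tsum_eq_zero_add]
  have h0 : gg ε a R 0 = 0 := by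
    unfold gg
    rw [if_neg (by norm_num)]
  rw [h0, zero_add]
  have hxr : (1 / (8 * R)) ^ (-(1 / 2) : ℝ) = Real.sqrt 8 * Real.sqrt R := by
    rw [Real.rpow_neg hx.le, ← Real.sqrt_eq_rpow, one_div, Real.sqrt_inv, inv_inv,
      Real.sqrt_mul (by norm_num)]
  calc ∑' n : ℕ, gg ε a R (n + 1)
      ≤ ∑' n : ℕ, (((n : ℝ) + 1) ^ (-((1 + ε) / 2)) * Real.exp (-(1 / (8 * R) * ((n : ℝ) + 1))) +
        R / Real.sqrt a * ((n : ℝ) + 1) ^ (-(1 + ε / 2))) :=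
          Summable.tsum_le_tsum (fun n => gg_le ε a R ha hR n) h4 h3
    _ = ∑' n : ℕ, ((n : ℝ) + 1) ^ (-((1 + ε) / 2)) * Real.exp (-(1 / (8 * R) * ((n : ℝ) + 1))) +
        R / Real.sqrt a * C2 := by
          rw [Summable.tsum_add h1 (hs.mul_left _), tsum_mul_left, hC2]
    _ ≤ _ := by
          rw [hxr] at h2
          linarith

/-- the final inequality between the monomials -/
lemma fin_ineq (A B P Q T M s q : ℝ) (hA : 0 ≤ A) (hB : 0 ≤ B) (hP : 0 ≤ P) (hQ : 0 ≤ Q)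
    (hT : 0 ≤ T) (hM : 0 ≤ M) (hs : 0 < s) (hq : 0 ≤ q) (hMs : M ≤ s) :
    (A * (P * M + q * (Q * M ^ 2)) + B / s * (Q * M ^ 2 + q * (T * M ^ 3))) / s ≤
      (A + B) * (P + Q + T) * (1 + s * q) := by
  have h1 : M / s ≤ 1 := by rw [div_le_one hs]; exact hMs
  have h2 : M ^ 2 / s ≤ s := by
    rw [div_le_iff₀ hs, ← sq]
    exact pow_le_pow_left₀ hM hMs 2
  have h3 : M ^ 2 / s ^ 2 ≤ 1 := by
    rw [div_le_one (by positivity)]
    exact pow_le_pow_left₀ hM hMs 2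
  have h4 : M ^ 3 / s ^ 2 ≤ s := by
    rw [div_le_iff₀ (by positivity)]
    have : s * s ^ 2 = s ^ 3 := by ring
    rw [this]
    exact pow_le_pow_left₀ hM hMs 3
  have e : (A * (P * M + q * (Q * M ^ 2)) + B / s * (Q * M ^ 2 + q * (T * M ^ 3))) / s =
      A * P * (M / s) + A * q * Q * (M ^ 2 / s) + B * Q * (M ^ 2 / s ^ 2) +
        B * q * T * (M ^ 3 / s ^ 2) := by
    field_simp
    ring
  rw [e]
  have i1 := mul_le_mul_of_nonneg_left h1 (show 0 ≤ A * P by positivity)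
  have i2 := mul_le_mul_of_nonneg_left h2 (show 0 ≤ A * q * Q by positivity)
  have i3 := mul_le_mul_of_nonneg_left h3 (show 0 ≤ B * Q by positivity)
  have i4 := mul_le_mul_of_nonneg_left h4 (show 0 ≤ B * q * T by positivity)
  have j : A * P * 1 + A * q * Q * s + B * Q * 1 + B * q * T * s ≤
      (A + B) * (P + Q + T) * (1 + s * q) := by
    have k1 : 0 ≤ A * (Q + T) + B * (P + T) := by positivity
    have k2 : 0 ≤ (A * (P + T) + B * (P + Q)) * (s * q) := by positivity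
    nlinarith
  linarith

/-- **Module BSM.** -/
theorem pf_BSM (hSEX : T_SEX) (hDYS : T_DYS) : T_BSM := by
  intro ε hε hε1
  obtain ⟨C1, hC1, h1⟩ := hSEX (-((1 + ε) / 2)) (ε / 2) (by linarith) (by linarith)
  have h1' : ∀ x : ℝ, 0 < x →
      Summable (fun n : ℕ => ((n : ℝ) + 1) ^ (-((1 + ε) / 2)) *
        Real.exp (-(x * ((n : ℝ) + 1)))) ∧
      ∑' n : ℕ, ((n : ℝ) + 1) ^ (-((1 + ε) / 2)) * Real.exp (-(x * ((n : ℝ) + 1))) ≤
        C1 * x ^ (-(1 / 2) : ℝ) := by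
    intro x hx
    obtain ⟨ha, hb⟩ := h1 x hx
    refine ⟨ha, ?_⟩
    have e : -(-((1 + ε) / 2) + 1 + ε / 2) = (-(1 / 2) : ℝ) := by ring
    rw [e] at hb
    exact hb
  have hs : Summable (fun n : ℕ => ((n : ℝ) + 1) ^ (-(1 + ε / 2))) := by
    have h := (summable_nat_add_iff (f := fun n : ℕ => (n : ℝ) ^ (-(1 + ε / 2))) 1).mpr
      (Real.summable_nat_rpow.mpr (by linarith))
    refine h.congr fun n => ?_
    push_cast
    rfl
  obtain ⟨C2, hC2⟩ : ∃ C2, ∑' n : ℕ, ((n : ℝ) + 1) ^ (-(1 + ε / 2)) = C2 := ⟨_, rfl⟩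
  have hC2p : 0 ≤ C2 := by
    rw [← hC2]
    exact tsum_nonneg fun n => by positivity
  obtain ⟨Ca, hCa, ha⟩ := hDYS (1 / 2 + 3 * ε / 2) (by linarith)
  obtain ⟨Cb, hCb, hb⟩ := hDYS (1 + 3 * ε / 2) (by linarith)
  obtain ⟨Cc, hCc, hc⟩ := hDYS (3 / 2 + 3 * ε / 2) (by linarith)
  refine ⟨(C1 * Real.sqrt 8 + C2) * (Ca + Cb + Cc), by positivity, ?_⟩
  intro a e m Y ha1 he1 hm1 hY1 hmae
  have haR : (0 : ℝ) < a := by exact_mod_cast ha1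
  have heR : (0 : ℝ) < e := by exact_mod_cast he1
  have hmR : (0 : ℝ) < m := by exact_mod_cast hm1
  have hYR : (0 : ℝ) < Y := by exact_mod_cast hY1
  obtain ⟨t, ht⟩ : ∃ t : ℝ, t = (Real.sqrt Y)⁻¹ := ⟨_, rfl⟩
  obtain ⟨c, hcc⟩ : ∃ c : ℝ, c = (e : ℝ) ^ 2 / m := ⟨_, rfl⟩
  obtain ⟨q, hq⟩ : ∃ q : ℝ, q = Real.sqrt t := ⟨_, rfl⟩
  obtain ⟨s, hsd⟩ : ∃ s : ℝ, s = Real.sqrt a := ⟨_, rfl⟩
  obtain ⟨K, hK⟩ : ∃ K : ℝ, K = (Y : ℝ) ^ (1 / 4 + ε / 4) / ((e : ℝ) * Real.sqrt a) := ⟨_, rfl⟩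
  have htp : 0 < t := by rw [ht]; positivity
  have hcp : 0 < c := by rw [hcc]; positivity
  have hqp : 0 ≤ q := by rw [hq]; positivity
  have hsp : 0 < s := by rw [hsd]; positivity
  have hKp : 0 ≤ K := by rw [hK]; positivity
  obtain ⟨sa, ba⟩ := ha t c htp hcp
  obtain ⟨sb, bb'⟩ := hb t c htp hcp
  obtain ⟨sc, bc⟩ := hc t c htp hcp
  -- the blocks in terms of `gg`
  have hRj : ∀ j : ℕ, (0 : ℝ) < 2 ^ j * t := fun j => by positivity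
  have hBb : ∀ j d : ℕ, Bb ε a e m Y j d = (K * (1 + Real.sqrt ((2 : ℝ) ^ j * t) * q) *
      ((2 : ℝ) ^ j * t) ^ (3 * ε / 2) * Real.exp (-(c * ((2 : ℝ) ^ j * t)))) *
        gg ε a ((2 : ℝ) ^ j * t) d := by
    intro j d
    unfold Bb gg
    have e1 : (2 : ℝ) ^ j / Real.sqrt Y = 2 ^ j * t := by rw [ht, div_eq_mul_inv]
    have e2 : (e : ℝ) ^ 2 * ((2 : ℝ) ^ j * t) / m = c * ((2 : ℝ) ^ j * t) := by rw [hcc]; ring
    have e3 : Real.sqrt ((2 : ℝ) ^ j * t / Real.sqrt Y) = Real.sqrt ((2 : ℝ) ^ j * t) * q := by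
      rw [div_eq_mul_inv, ← ht, Real.sqrt_mul (hRj j).le, hq]
    rw [e1, e2, e3, ← hK]
    by_cases hd : 1 ≤ d
    · rw [if_pos hd, if_pos hd]; ring
    · rw [if_neg hd, if_neg hd, mul_zero]
  have hgs : ∀ j : ℕ, Summable (gg ε a ((2 : ℝ) ^ j * t)) ∧
      ∑' d : ℕ, gg ε a ((2 : ℝ) ^ j * t) d ≤ C1 * Real.sqrt 8 * Real.sqrt ((2 : ℝ) ^ j * t) +
        ((2 : ℝ) ^ j * t) / Real.sqrt a * C2 :=
    fun j => gg_sum ε C1 C2 h1' hs hC2 a _ haR (hRj j)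
  -- the majorant in `j`
  have hH : Summable (fun j : ℕ => K * (C1 * Real.sqrt 8 *
      (((2 : ℝ) ^ j * t) ^ (1 / 2 + 3 * ε / 2) * Real.exp (-(c * ((2 : ℝ) ^ j * t))) +
        q * (((2 : ℝ) ^ j * t) ^ (1 + 3 * ε / 2) * Real.exp (-(c * ((2 : ℝ) ^ j * t))))) +
      C2 / s * (((2 : ℝ) ^ j * t) ^ (1 + 3 * ε / 2) * Real.exp (-(c * ((2 : ℝ) ^ j * t))) +
        q * (((2 : ℝ) ^ j * t) ^ (3 / 2 + 3 * ε / 2) *
          Real.exp (-(c * ((2 : ℝ) ^ j * t))))))) :=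
    (((sa.add (sb.mul_left q)).mul_left _).add ((sb.add (sc.mul_left q)).mul_left _)).mul_left K
  have hle : ∀ j : ℕ, ∑' d : ℕ, Bb ε a e m Y j d ≤ K * (C1 * Real.sqrt 8 *
      (((2 : ℝ) ^ j * t) ^ (1 / 2 + 3 * ε / 2) * Real.exp (-(c * ((2 : ℝ) ^ j * t))) +
        q * (((2 : ℝ) ^ j * t) ^ (1 + 3 * ε / 2) * Real.exp (-(c * ((2 : ℝ) ^ j * t))))) +
      C2 / s * (((2 : ℝ) ^ j * t) ^ (1 + 3 * ε / 2) * Real.exp (-(c * ((2 : ℝ) ^ j * t))) +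
        q * (((2 : ℝ) ^ j * t) ^ (3 / 2 + 3 * ε / 2) *
          Real.exp (-(c * ((2 : ℝ) ^ j * t)))))) := by
    intro j
    have hR := hRj j
    have e4 : ((2 : ℝ) ^ j * t) ^ (1 / 2 + 3 * ε / 2) =
        Real.sqrt ((2 : ℝ) ^ j * t) * ((2 : ℝ) ^ j * t) ^ (3 * ε / 2) := by
      rw [Real.rpow_add hR, ← Real.sqrt_eq_rpow]
    have e5 : ((2 : ℝ) ^ j * t) ^ (1 + 3 * ε / 2) =
        ((2 : ℝ) ^ j * t) * ((2 : ℝ) ^ j * t) ^ (3 * ε / 2) := by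
      rw [Real.rpow_add hR, Real.rpow_one]
    have e6 : ((2 : ℝ) ^ j * t) ^ (3 / 2 + 3 * ε / 2) =
        ((2 : ℝ) ^ j * t) * Real.sqrt ((2 : ℝ) ^ j * t) *
          ((2 : ℝ) ^ j * t) ^ (3 * ε / 2) := by
      have : (3 / 2 + 3 * ε / 2 : ℝ) = 1 + 1 / 2 + 3 * ε / 2 := by ring
      rw [this, Real.rpow_add hR, Real.rpow_add hR, Real.rpow_one, ← Real.sqrt_eq_rpow]
    rw [e4, e5, e6]
    have hSS := Real.mul_self_sqrt hR.le
    obtain ⟨hg1, hg2⟩ := hgs j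
    simp only [hBb]
    rw [tsum_mul_left]
    rw [← hsd] at hg2
    obtain ⟨S, hS⟩ : ∃ S, S = Real.sqrt ((2 : ℝ) ^ j * t) := ⟨_, rfl⟩
    obtain ⟨R, hRd⟩ : ∃ R, R = (2 : ℝ) ^ j * t := ⟨_, rfl⟩
    obtain ⟨W, hW⟩ : ∃ W, W = ((2 : ℝ) ^ j * t) ^ (3 * ε / 2) := ⟨_, rfl⟩
    obtain ⟨E, hE⟩ : ∃ E, E = Real.exp (-(c * ((2 : ℝ) ^ j * t))) := ⟨_, rfl⟩
    have hSp : 0 ≤ S := by rw [hS]; positivity
    have hWp : 0 ≤ W := by rw [hW]; positivity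
    have hEp : 0 ≤ E := by rw [hE]; positivity
    rw [← hS, ← hW, ← hE]
    rw [← hS] at hg2 hSS
    calc K * (1 + S * q) * W * E * ∑' d : ℕ, gg ε a ((2 : ℝ) ^ j * t) d
        ≤ K * (1 + S * q) * W * E * (C1 * Real.sqrt 8 * S + (2 : ℝ) ^ j * t / s * C2) :=
          mul_le_mul_of_nonneg_left hg2 (by positivity)
      _ = _ := by
          rw [← hRd] at hSS ⊢
          have h7 : S * S = R := hSS
          rw [← h7]
          field_simp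
  have hnn : ∀ j d : ℕ, 0 ≤ Bb ε a e m Y j d := by
    intro j d
    rw [hBb]
    have := gg_nonneg ε a _ (hRj j) d
    have := (hRj j).le
    positivity
  have hrow : ∀ j : ℕ, Summable (fun d : ℕ => Bb ε a e m Y j d) := by
    intro j
    simp only [hBb]
    exact (hgs j).1.mul_left _
  have hcol : Summable (fun j : ℕ => ∑' d : ℕ, Bb ε a e m Y j d) :=
    Summable.of_nonneg_of_le (fun j => tsum_nonneg fun d => hnn j d) hle hH
  have hprod : Summable (fun x : ℕ × ℕ => Bb ε a e m Y x.1 x.2) := by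
    rw [summable_prod_of_nonneg (fun x => hnn x.1 x.2)]
    exact ⟨hrow, hcol⟩
  refine ⟨hprod, ?_⟩
  rw [hprod.tsum_prod' hrow]
  refine le_trans (Summable.tsum_le_tsum hle hcol hH) ?_
  rw [tsum_mul_left, Summable.tsum_add ((sa.add (sb.mul_left q)).mul_left _)
    ((sb.add (sc.mul_left q)).mul_left _), tsum_mul_left, tsum_mul_left,
    Summable.tsum_add sa (sb.mul_left q), Summable.tsum_add sb (sc.mul_left q), tsum_mul_left,
    tsum_mul_left]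
  -- the powers of `c`
  obtain ⟨μ, hμ⟩ : ∃ μ : ℝ, μ = (m : ℝ) / (e : ℝ) ^ 2 := ⟨_, rfl⟩
  have hμp : 0 < μ := by rw [hμ]; positivity
  have hcμ : c = μ⁻¹ := by rw [hcc, hμ, inv_div]
  have hcpow : ∀ x : ℝ, c ^ (-x) = μ ^ x := by
    intro x
    rw [hcμ, Real.rpow_neg (by positivity), Real.inv_rpow hμp.le, inv_inv]
  obtain ⟨M, hM⟩ : ∃ M : ℝ, M = Real.sqrt μ := ⟨_, rfl⟩
  have hMp : 0 ≤ M := by rw [hM]; positivity
  have hMM : M ^ 2 = μ := by rw [hM]; exact Real.sq_sqrt hμp.le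
  obtain ⟨W, hW⟩ : ∃ W, W = μ ^ (3 * ε / 2) := ⟨_, rfl⟩
  have hWp : 0 ≤ W := by rw [hW]; positivity
  have p1 : c ^ (-(1 / 2 + 3 * ε / 2)) = M * W := by
    rw [hcpow, Real.rpow_add hμp, ← Real.sqrt_eq_rpow, ← hM, ← hW]
  have p2 : c ^ (-(1 + 3 * ε / 2)) = M ^ 2 * W := by
    rw [hcpow, Real.rpow_add hμp, Real.rpow_one, ← hW, hMM]
  have p3 : c ^ (-(3 / 2 + 3 * ε / 2)) = M ^ 3 * W := by
    have : (3 / 2 + 3 * ε / 2 : ℝ) = 1 + 1 / 2 + 3 * ε / 2 := by ring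
    rw [this, hcpow, Real.rpow_add hμp, Real.rpow_add hμp, Real.rpow_one, ← Real.sqrt_eq_rpow,
      ← hM, ← hW]
    have : M ^ 3 = M ^ 2 * M := by ring
    rw [this, hMM]
  rw [p1] at ba
  rw [p2] at bb'
  rw [p3] at bc
  have hMs : M ≤ s := by
    rw [hM, hsd]
    apply Real.sqrt_le_sqrt
    rw [hμ, div_le_iff₀ (by positivity)]
    exact_mod_cast hmae
  have hfin := fin_ineq (C1 * Real.sqrt 8) C2 Ca Cb Cc M s q (by positivity) hC2p hCa.le hCb.le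
    hCc.le hMp hsp hqp hMs
  have hYn : 0 ≤ (Y : ℝ) ^ (1 / 4 + ε / 4) / e * W := by positivity
  have hq2 : Real.sqrt (a / Real.sqrt Y) = s * q := by
    rw [div_eq_mul_inv, ← ht, Real.sqrt_mul haR.le, ← hsd, ← hq]
  rw [hq2, ← hμ, ← hW]
  have hK' : K = (Y : ℝ) ^ (1 / 4 + ε / 4) / e / s := by
    rw [hK, ← hsd, div_div]
  obtain ⟨Z, hZ⟩ : ∃ Z, Z = (Y : ℝ) ^ (1 / 4 + ε / 4) / e := ⟨_, rfl⟩
  rw [← hZ] at hK' hYn
  have hgoal : (C1 * Real.sqrt 8 + C2) * (Ca + Cb + Cc) * (Y : ℝ) ^ (1 / 4 + ε / 4) / e * W *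
      (1 + s * q) = Z * W * ((C1 * Real.sqrt 8 + C2) * (Ca + Cb + Cc) * (1 + s * q)) := by
    rw [hZ]; ring
  rw [hgoal]
  refine le_trans ?_ (mul_le_mul_of_nonneg_left hfin hYn)
  have hrhs : Z * W * ((C1 * Real.sqrt 8 * (Ca * M + q * (Cb * M ^ 2)) +
      C2 / s * (Cb * M ^ 2 + q * (Cc * M ^ 3))) / s) =
      K * (C1 * Real.sqrt 8 * (Ca * (M * W) + q * (Cb * (M ^ 2 * W))) +
        C2 / s * (Cb * (M ^ 2 * W) + q * (Cc * (M ^ 3 * W)))) := by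
    rw [hK']; field_simp
  rw [hrhs]
  apply mul_le_mul_of_nonneg_left _ hKp
  have hC2s : 0 ≤ C2 / s := by positivity
  have hA8 : 0 ≤ C1 * Real.sqrt 8 := by positivity
  apply add_le_add
  · exact mul_le_mul_of_nonneg_left (add_le_add ba (mul_le_mul_of_nonneg_left bb' hqp)) hA8
  · exact mul_le_mul_of_nonneg_left (add_le_add bb' (mul_le_mul_of_nonneg_left bc hqp)) hC2s

end Pool.Agent.H46.AD
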