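import Pool.Agent.H95.AD.TargetsU
import Pool.Agent.H96.CN.LOCOdd

/-!
# Module NRF of the board `adu_modules`: the numbers of roots for a fundamental discriminant
-/

set_option autoImplicit false

namespace Pool.Agent.H46.AD

open Pool.Agent.H31.CN Pool.Agent.H95.AD

/-- the values of the form -/
def ff (A B C j : ℤ) : ℤ := A * j ^ 2 + B * j + C

lemma ff_sub (A B C i j : ℤ) : ff A B C j - ff A B C i = (j - i) * (A * (i + j) + B) := by
  unfold ff; ring

lemma ff_mod (p : ℕ) (A B C : ℤ) {i j : ℤ} (h : (p : ℤ) ∣ j - i) :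
    (p : ℤ) ∣ ff A B C j ↔ (p : ℤ) ∣ ff A B C i := by
  have h1 : (p : ℤ) ∣ ff A B C j - ff A B C i := by
    rw [ff_sub]; exact Dvd.dvd.mul_right h _
  constructor
  · intro h2
    have := dvd_sub h2 h1
    rwa [sub_sub_cancel] at this
  · intro h2
    have := dvd_add h1 h2
    rwa [sub_add_cancel] at this

lemma ff_key (A B C j : ℤ) : (2 * A * j + B) ^ 2 = 4 * A * ff A B C j - (4 * A * C - B ^ 2) := by
  unfold ff; ring

/-- simple roots lift uniquely -/
lemma hensel (p : ℕ) (hp : p.Prime) (A B C : ℤ)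
    (h : ∀ j : ℤ, (p : ℤ) ∣ ff A B C j → ¬ (p : ℤ) ∣ 2 * A * j + B) :
    nrt (p ^ 2) A B C = nrt p A B C := by
  have hp0 : 0 < p := hp.pos
  have hpZ : (0 : ℤ) < (p : ℤ) := by exact_mod_cast hp0
  have hpr : Prime (p : ℤ) := Nat.prime_iff_prime_int.mp hp
  have hdm : ∀ j : ℕ, (p : ℤ) ∣ (j : ℤ) - ((j % p : ℕ) : ℤ) := by
    intro j
    push_cast
    exact Int.dvd_self_sub_emod
  unfold nrt
  refine Finset.card_bij (fun (j : ℕ) _ => j % p) ?_ ?_ ?_
  · intro j hj
    rw [Finset.mem_filter] at hj ⊢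
    refine ⟨Finset.mem_range.mpr (Nat.mod_lt _ hp0), ?_⟩
    have h1 : (p : ℤ) ∣ ff A B C (j : ℤ) := by
      have h2 := hj.2
      push_cast at h2
      exact dvd_trans (Dvd.intro_left ((p : ℤ) ^ 1) (by ring)) h2
    exact (ff_mod p A B C (hdm j)).mp h1
  · intro i hi j hj hij
    rw [Finset.mem_filter, Finset.mem_range] at hi hj
    have hi2 : (p : ℤ) ^ 2 ∣ ff A B C (i : ℤ) := by
      have := hi.2
      push_cast at this
      exact this
    have hj2 : (p : ℤ) ^ 2 ∣ ff A B C (j : ℤ) := by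
      have := hj.2
      push_cast at this
      exact this
    have h3 : (p : ℤ) ∣ (j : ℤ) - (i : ℤ) := by
      have ha := hdm i
      have hb := hdm j
      have hij' : ((i % p : ℕ) : ℤ) = ((j % p : ℕ) : ℤ) := by
        have : i % p = j % p := hij
        rw [this]
      have := dvd_sub hb ha
      rw [hij'] at this
      rwa [sub_sub_sub_cancel_right] at this
    have hi1 : (p : ℤ) ∣ ff A B C (i : ℤ) :=
      dvd_trans (Dvd.intro_left ((p : ℤ) ^ 1) (by ring)) hi2
    have h4 := h (i : ℤ) hi1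
    have h5 : ¬ (p : ℤ) ∣ A * ((i : ℤ) + j) + B := by
      intro h6
      apply h4
      have : 2 * A * (i : ℤ) + B = (A * ((i : ℤ) + j) + B) - A * ((j : ℤ) - i) := by ring
      rw [this]
      exact dvd_sub h6 (Dvd.dvd.mul_left h3 _)
    have h7 : (p : ℤ) ^ 2 ∣ ((j : ℤ) - i) * (A * ((i : ℤ) + j) + B) := by
      rw [← ff_sub A B C]
      exact dvd_sub hj2 hi2
    have hcop : IsCoprime ((p : ℤ) ^ 2) (A * ((i : ℤ) + j) + B) := by
      apply IsCoprime.pow_left
      exact (Prime.coprime_iff_not_dvd hpr).mpr h5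
    have h8 : (p : ℤ) ^ 2 ∣ (j : ℤ) - i := hcop.dvd_of_dvd_mul_right h7
    have h9 : ((p ^ 2 : ℕ) : ℤ) ∣ (j : ℤ) - i := by push_cast; exact h8
    have h10 := (Nat.modEq_iff_dvd).mpr h9
    have h11 := Nat.ModEq.eq_of_lt_of_lt h10 hi.1 hj.1
    exact h11
  · intro i hi
    rw [Finset.mem_filter, Finset.mem_range] at hi
    have hi1 : (p : ℤ) ∣ ff A B C (i : ℤ) := hi.2
    have h4 := h (i : ℤ) hi1
    obtain ⟨c, hc⟩ := hi1
    have hcop : IsCoprime ((p : ℤ)) (2 * A * (i : ℤ) + B) :=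
      (Prime.coprime_iff_not_dvd hpr).mpr h4
    obtain ⟨u, v, huv⟩ := hcop
    -- t = -c * v modulo p
    have ht0 : (0 : ℤ) ≤ (-c * v) % (p : ℤ) := Int.emod_nonneg _ hpZ.ne'
    have htp : (-c * v) % (p : ℤ) < (p : ℤ) := Int.emod_lt_of_pos _ hpZ
    obtain ⟨t, ht⟩ := Int.eq_ofNat_of_zero_le ht0
    have htlt : t < p := by
      have : (t : ℤ) < (p : ℤ) := by rw [← ht]; exact htp
      exact_mod_cast this
    have htd : (p : ℤ) ∣ (t : ℤ) - (-c * v) := by
      have := Int.dvd_self_sub_emod (x := -c * v) (m := (p : ℤ))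
      rw [ht] at this
      rw [← dvd_neg, neg_sub]
      exact this
    refine ⟨i + p * t, ?_, ?_⟩
    · rw [Finset.mem_filter, Finset.mem_range]
      constructor
      · calc i + p * t < p + p * t := by
              exact Nat.add_lt_add_right hi.1 _
          _ = p * (t + 1) := by ring
          _ ≤ p * p := Nat.mul_le_mul_left p htlt
          _ = p ^ 2 := by ring
      · push_cast
        obtain ⟨w, hw⟩ := htd
        have hk : A * ((i : ℤ) + p * t) ^ 2 + B * ((i : ℤ) + p * t) + C =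
            ff A B C (i : ℤ) + p * (t * (2 * A * i + B)) + (p : ℤ) ^ 2 * (A * t ^ 2) := by
          unfold ff; ring
        rw [hk, hc]
        have hw' : (t : ℤ) = p * w - c * v := by linear_combination hw
        have hv : v * (2 * A * (i : ℤ) + B) = 1 - u * p := by linear_combination huv
        refine ⟨w * (2 * A * i + B) + c * u + A * t ^ 2, ?_⟩
        have h12 : (t : ℤ) * (2 * A * i + B) = p * w * (2 * A * i + B) - c * (1 - u * p) := by
          rw [← hv, hw']; ring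
        rw [h12]; ring
    · show (i + p * t) % p = i
      rw [Nat.add_mul_mod_self_left]
      exact Nat.mod_eq_of_lt hi.1

/-- the number of roots modulo an odd prime with an invertible leading coefficient -/
lemma nrt_odd (p : ℕ) [hp : Fact p.Prime] (h2 : p ≠ 2) (A B C : ℤ) (hA : ¬ (p : ℤ) ∣ A) :
    nrt p A B C = nrt p 1 0 (4 * A * C - B ^ 2) := by
  have hp0 : 0 < p := hp.out.pos
  have hpZ : (0 : ℤ) < (p : ℤ) := by exact_mod_cast hp0
  have hpr : Prime (p : ℤ) := Nat.prime_iff_prime_int.mp hp.out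
  have h2' : ¬ (p : ℤ) ∣ 2 := Pool.Agent.H96.CN.not_dvd_two p h2
  have h4' : ¬ (p : ℤ) ∣ 4 := Pool.Agent.H96.CN.not_dvd_four p h2
  have h2A : ¬ (p : ℤ) ∣ 2 * A := by
    intro h
    rcases hpr.dvd_or_dvd h with h | h
    · exact h2' h
    · exact hA h
  have h4A : ¬ (p : ℤ) ∣ 4 * A := by
    intro h
    rcases hpr.dvd_or_dvd h with h | h
    · exact h4' h
    · exact hA h
  unfold nrt
  have hem : ∀ x : ℤ, ∃ t : ℕ, (t : ℤ) = x % (p : ℤ) ∧ t < p ∧ (p : ℤ) ∣ x - t := by
    intro x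
    obtain ⟨t, ht⟩ := Int.eq_ofNat_of_zero_le (Int.emod_nonneg x hpZ.ne')
    refine ⟨t, ht.symm, ?_, ?_⟩
    · have : (t : ℤ) < (p : ℤ) := by rw [← ht]; exact Int.emod_lt_of_pos _ hpZ
      exact_mod_cast this
    · rw [← ht]; exact Int.dvd_self_sub_emod
  choose g hg1 hg2 hg3 using hem
  refine Finset.card_bij (fun (j : ℕ) _ => g (2 * A * j + B)) ?_ ?_ ?_
  · intro j hj
    rw [Finset.mem_filter] at hj ⊢
    refine ⟨Finset.mem_range.mpr (hg2 _), ?_⟩
    have h1 : (p : ℤ) ∣ ff A B C (j : ℤ) := hj.2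
    obtain ⟨w, hw⟩ := hg3 (2 * A * j + B)
    have hk := ff_key A B C (j : ℤ)
    have he : (1 : ℤ) * ((g (2 * A * j + B) : ℕ) : ℤ) ^ 2 + 0 * ((g (2 * A * j + B) : ℕ) : ℤ) +
        (4 * A * C - B ^ 2) = 4 * A * ff A B C j - (p : ℤ) * (w * (2 * A * j + B +
          g (2 * A * j + B))) := by
      have : ((g (2 * A * j + B) : ℕ) : ℤ) = 2 * A * j + B - p * w := by linear_combination -hw
      rw [this]
      linear_combination hk
    rw [he]
    exact dvd_sub (Dvd.dvd.mul_left h1 _) (Dvd.intro _ rfl)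
  · intro i hi j hj hij
    rw [Finset.mem_filter, Finset.mem_range] at hi hj
    have h3 := hg3 (2 * A * i + B)
    have h4 := hg3 (2 * A * j + B)
    have hij' : g (2 * A * i + B) = g (2 * A * j + B) := hij
    rw [hij'] at h3
    have h5 := dvd_sub h4 h3
    have h6 : (p : ℤ) ∣ 2 * A * ((j : ℤ) - i) := by
      have : 2 * A * ((j : ℤ) - i) = (2 * A * j + B - (g (2 * A * j + B) : ℕ)) -
        (2 * A * i + B - (g (2 * A * j + B) : ℕ)) := by ring
      rw [this]; exact h5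
    have h7 : (p : ℤ) ∣ (j : ℤ) - i := by
      rcases hpr.dvd_or_dvd h6 with h | h
      · exact absurd h h2A
      · exact h
    exact Nat.ModEq.eq_of_lt_of_lt ((Nat.modEq_iff_dvd).mpr h7) hi.1 hj.1
  · intro y hy
    rw [Finset.mem_filter, Finset.mem_range] at hy
    have hcop : IsCoprime ((p : ℤ)) (2 * A) := (Prime.coprime_iff_not_dvd hpr).mpr h2A
    obtain ⟨u, v, huv⟩ := hcop
    refine ⟨g (v * (y - B)), ?_, ?_⟩
    · rw [Finset.mem_filter]
      refine ⟨Finset.mem_range.mpr (hg2 _), ?_⟩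
      show (p : ℤ) ∣ ff A B C ((g (v * (y - B)) : ℕ) : ℤ)
      rw [← ff_mod p A B C (hg3 (v * (y - B)))]
      have h8 : (p : ℤ) ∣ 4 * A * ff A B C (v * (y - B)) := by
        have hk := ff_key A B C (v * (y - B))
        have hy2 : (p : ℤ) ∣ (y : ℤ) ^ 2 + (4 * A * C - B ^ 2) := by
          have := hy.2
          rwa [one_mul, zero_mul, add_zero] at this
        have he : 4 * A * ff A B C (v * (y - B)) = ((y : ℤ) ^ 2 + (4 * A * C - B ^ 2)) +
            p * (-(u * (y - B)) * (2 * A * (v * (y - B)) + B + y)) := by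
          have h9 : 2 * A * (v * ((y : ℤ) - B)) + B = y - u * p * (y - B) := by
            linear_combination ((y : ℤ) - B) * huv
          have h10 : (2 * A * (v * ((y : ℤ) - B)) + B) ^ 2 - (y : ℤ) ^ 2 =
              (-(u * p * (y - B))) * (2 * A * (v * (y - B)) + B + y) := by
            have : (2 * A * (v * ((y : ℤ) - B)) + B) ^ 2 - (y : ℤ) ^ 2 =
              ((2 * A * (v * ((y : ℤ) - B)) + B) - y) * (2 * A * (v * (y - B)) + B + y) := by
              ring
            rw [this, h9]; ring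
          linear_combination h10 - hk
        rw [he]
        exact dvd_add hy2 (Dvd.intro _ rfl)
      rcases hpr.dvd_or_dvd h8 with h | h
      · exact absurd h h4A
      · exact h
    · have h11 : (p : ℤ) ∣ (y : ℤ) - g (2 * A * (g (v * (y - B)) : ℕ) + B) := by
        obtain ⟨w, hw⟩ := hg3 (v * (y - B))
        obtain ⟨w', hw'⟩ := hg3 (2 * A * (g (v * (y - B)) : ℕ) + B)
        refine ⟨w' + 2 * A * w + u * (y - B), ?_⟩
        linear_combination hw' + 2 * A * hw - ((y : ℤ) - B) * huv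
      have h12 := (Nat.modEq_iff_dvd).mpr h11
      exact Nat.ModEq.eq_of_lt_of_lt h12 (hg2 _) hy.1

lemma lin_one (p : ℕ) (hp : p.Prime) (A B C : ℤ) (hA : (p : ℤ) ∣ A) (hB : ¬ (p : ℤ) ∣ B) :
    nrt p A B C = 1 := by
  have hp0 : 0 < p := hp.pos
  have hpZ : (0 : ℤ) < (p : ℤ) := by exact_mod_cast hp0
  have hpr : Prime (p : ℤ) := Nat.prime_iff_prime_int.mp hp
  have hcop : IsCoprime ((p : ℤ)) B := (Prime.coprime_iff_not_dvd hpr).mpr hB
  obtain ⟨u, v, huv⟩ := hcop
  obtain ⟨t, ht⟩ := Int.eq_ofNat_of_zero_le (Int.emod_nonneg (-C * v) hpZ.ne')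
  have htlt : t < p := by
    have : (t : ℤ) < (p : ℤ) := by rw [← ht]; exact Int.emod_lt_of_pos _ hpZ
    exact_mod_cast this
  have htd : (p : ℤ) ∣ -C * v - t := by
    rw [← ht]; exact Int.dvd_self_sub_emod
  obtain ⟨a, ha⟩ := hA
  have hff : ∀ j : ℤ, (p : ℤ) ∣ A * j ^ 2 + B * j + C ↔ (p : ℤ) ∣ B * j + C := by
    intro j
    have : A * j ^ 2 + B * j + C = p * (a * j ^ 2) + (B * j + C) := by rw [ha]; ring
    rw [this]
    exact dvd_add_right (Dvd.intro _ rfl)
  have hfs : (Finset.range p).filter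
      (fun j : ℕ => (p : ℤ) ∣ A * (j : ℤ) ^ 2 + B * (j : ℤ) + C) = {t} := by
    ext j
    rw [Finset.mem_filter, Finset.mem_range, Finset.mem_singleton, hff]
    constructor
    · rintro ⟨h1, h2⟩
      have h3 : (p : ℤ) ∣ (t : ℤ) - j := by
        obtain ⟨w, hw⟩ := htd
        obtain ⟨w', hw'⟩ := h2
        refine ⟨-w - w' * v - u * j, ?_⟩
        linear_combination -hw - v * hw' + (j : ℤ) * huv
      exact Nat.ModEq.eq_of_lt_of_lt ((Nat.modEq_iff_dvd).mpr h3) h1 htlt
    · intro h1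
      subst h1
      refine ⟨htlt, ?_⟩
      obtain ⟨w, hw⟩ := htd
      refine ⟨-(B * w) + C * u, ?_⟩
      linear_combination -B * hw - C * huv
  unfold nrt
  rw [hfs, Finset.card_singleton]

lemma nrt_zero (q : ℕ) (A B C : ℤ)
    (h : ∀ j : ℤ, ¬ (q : ℤ) ∣ A * j ^ 2 + B * j + C) : nrt q A B C = 0 := by
  unfold nrt
  rw [Finset.card_eq_zero, Finset.filter_eq_empty_iff]
  intro j _
  exact h j

lemma two_case (D : ℕ) (A B C : ℤ) (h4 : D % 4 = 3) (h : 4 * A * C - B ^ 2 = D) :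
    (nrt 2 A B C : ℤ) = 1 + chi 2 D - (if ((2 : ℕ) : ℤ) ∣ A then 1 else 0) := by
  have h4Z : (D : ℤ) % 4 = 3 := by exact_mod_cast h4
  have hB : B % 2 = 1 := by
    rcases Int.emod_two_eq_zero_or_one B with h0 | h0
    · exfalso
      obtain ⟨b, hb⟩ := Int.dvd_of_emod_eq_zero h0
      have : (D : ℤ) = 4 * (A * C - b ^ 2) := by rw [← h, hb]; ring
      omega
    · exact h0
  have hB8 : ∃ k : ℤ, B ^ 2 = 8 * k + 1 := by
    obtain ⟨b, hb⟩ : ∃ b : ℤ, B = 2 * b + 1 := ⟨B / 2, by omega⟩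
    rcases Int.even_or_odd' b with ⟨c, hc | hc⟩
    · exact ⟨2 * c ^ 2 + c, by rw [hb, hc]; ring⟩
    · exact ⟨2 * c ^ 2 + 3 * c + 1, by rw [hb, hc]; ring⟩
  obtain ⟨k, hk⟩ := hB8
  have hD : (D : ℤ) = 4 * (A * C) - 8 * k - 1 := by rw [← h, hk]; ring
  have hn : nrt 2 A B C = (if (2 : ℤ) ∣ C then 1 else 0) +
      (if (2 : ℤ) ∣ A + B + C then 1 else 0) := by
    unfold nrt
    rw [Finset.card_filter, Finset.sum_range_succ, Finset.sum_range_succ, Finset.sum_range_zero]
    push_cast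
    have e1 : A * 0 + B * 0 + C = C := by ring
    have e2 : A * 1 + B * 1 + C = A + B + C := by ring
    rw [e1, e2, zero_add]
  rw [hn]
  unfold chi
  rw [if_pos rfl]
  push_cast
  rcases Int.even_or_odd' A with ⟨a, ha | ha⟩ <;> rcases Int.even_or_odd' C with ⟨c, hc | hc⟩
  · have h8 : (D : ℤ) % 8 = 7 := by
      have : A * C = 2 * (a * C) := by rw [ha]; ring
      omega
    rw [if_pos (show (2 : ℤ) ∣ C by omega), if_neg (show ¬ (2 : ℤ) ∣ A + B + C by omega),
      if_pos h8, if_pos (show (2 : ℤ) ∣ A by omega)]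
    norm_num
  · have h8 : (D : ℤ) % 8 = 7 := by
      have : A * C = 2 * (a * C) := by rw [ha]; ring
      omega
    rw [if_neg (show ¬ (2 : ℤ) ∣ C by omega), if_pos (show (2 : ℤ) ∣ A + B + C by omega),
      if_pos h8, if_pos (show (2 : ℤ) ∣ A by omega)]
    norm_num
  · have h8 : (D : ℤ) % 8 = 7 := by
      have : A * C = 2 * (A * c) := by rw [hc]; ring
      omega
    rw [if_pos (show (2 : ℤ) ∣ C by omega), if_pos (show (2 : ℤ) ∣ A + B + C by omega),
      if_pos h8, if_neg (show ¬ (2 : ℤ) ∣ A by omega)]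
    norm_num
  · have h8 : ¬ (D : ℤ) % 8 = 7 := by
      have : A * C = 2 * (2 * a * c + a + c) + 1 := by rw [ha, hc]; ring
      omega
    rw [if_neg (show ¬ (2 : ℤ) ∣ C by omega), if_neg (show ¬ (2 : ℤ) ∣ A + B + C by omega),
      if_neg h8, if_neg (show ¬ (2 : ℤ) ∣ A by omega)]
    norm_num

lemma sqf (p D : ℕ) (hp : p.Prime) (hsf : Squarefree D) : ¬ (p : ℤ) ^ 2 ∣ (D : ℤ) := by
  intro h
  have h1 : p * p ∣ D := by
    have h2 : ((p * p : ℕ) : ℤ) ∣ (D : ℤ) := by push_cast; rw [← sq]; exact h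
    exact_mod_cast h2
  have := Nat.isUnit_iff.mp (hsf p h1)
  exact hp.one_lt.ne' this

lemma one (p D : ℕ) (A B C : ℤ) (hp : p.Prime) (h4 : D % 4 = 3) (hsf : Squarefree D)
    (h : 4 * A * C - B ^ 2 = D) :
    (nrt p A B C : ℤ) = 1 + chi p D - (if (p : ℤ) ∣ A then 1 else 0) := by
  by_cases h2 : p = 2
  · subst h2
    exact two_case D A B C h4 h
  · have : Fact p.Prime := ⟨hp⟩
    have hpr : Prime (p : ℤ) := Nat.prime_iff_prime_int.mp hp
    by_cases hA : (p : ℤ) ∣ A
    · rw [if_pos hA]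
      by_cases hB : (p : ℤ) ∣ B
      · have hd : (p : ℤ) ∣ (D : ℤ) := by
          rw [← h]
          exact dvd_sub (Dvd.dvd.mul_right (Dvd.dvd.mul_left hA 4) C) (Dvd.dvd.pow hB two_ne_zero)
        rw [Pool.Agent.H96.CN.chi_zero p h2 hd]
        rw [nrt_zero p A B C ?_]
        · norm_num
        · intro j hj
          have hC : (p : ℤ) ∣ C := by
            have h5 : (p : ℤ) ∣ A * j ^ 2 + B * j :=
              dvd_add (Dvd.dvd.mul_right hA _) (Dvd.dvd.mul_right hB _)
            exact (dvd_add_right h5).mp hj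
          apply sqf p D hp hsf
          rw [← h]
          obtain ⟨a, ha⟩ := hA
          obtain ⟨b, hb⟩ := hB
          obtain ⟨c, hc⟩ := hC
          exact ⟨4 * a * c - b ^ 2, by rw [ha, hb, hc]; ring⟩
      · rw [lin_one p hp A B C hA hB]
        rw [Pool.Agent.H96.CN.chi_one p h2 (s := B) ?_ hB]
        · norm_num
        · rw [← h]
          obtain ⟨a, ha⟩ := hA
          exact ⟨4 * a * C, by rw [ha]; ring⟩
    · rw [if_neg hA, nrt_odd p h2 A B C hA, h]
      unfold chi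
      rw [if_neg h2]
      ring

/-- **Module NRF.** -/
theorem pf_NRF : T_NRF := by
  intro p D A B C hp hD h4 hsf hA h
  have hpr : Prime (p : ℤ) := Nat.prime_iff_prime_int.mp hp
  have hone := one p D A B C hp h4 hsf h
  have hif : ∀ n : ℕ, (if (p : ℤ) ∣ (n : ℤ) then (1 : ℤ) else 0) = if p ∣ n then 1 else 0 := by
    intro n
    by_cases hn : p ∣ n
    · rw [if_pos hn, if_pos (by exact_mod_cast hn)]
    · rw [if_neg hn, if_neg (by exact_mod_cast hn)]
  rw [hif] at hone
  refine ⟨hone, ?_, ?_⟩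
  · by_cases hd : p ∣ D
    · rw [if_pos hd]
      rw [nrt_zero (p ^ 2) A B C ?_]
      · norm_num
      · intro j hj
        push_cast at hj
        have hj' : (p : ℤ) ^ 2 ∣ ff A B C j := hj
        have hk := ff_key A B C j
        rw [h] at hk
        have hdZ : (p : ℤ) ∣ (D : ℤ) := by exact_mod_cast hd
        have h1 : (p : ℤ) ∣ (2 * A * j + B) ^ 2 := by
          rw [hk]
          refine dvd_sub (Dvd.dvd.mul_left ?_ _) hdZ
          exact dvd_trans (Dvd.intro_left ((p : ℤ) ^ 1) (by ring)) hj'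
        have h2 : (p : ℤ) ∣ 2 * A * j + B := hpr.dvd_of_dvd_pow h1
        apply sqf p D hp hsf
        have h3 : (D : ℤ) = 4 * A * ff A B C j - (2 * A * j + B) ^ 2 := by linear_combination hk
        rw [h3]
        exact dvd_sub (Dvd.dvd.mul_left hj' _) (pow_dvd_pow_of_dvd h2 2)
    · rw [if_neg hd, ← hone, hensel p hp A B C ?_]
      intro j hj h2
      have hk := ff_key A B C j
      rw [h] at hk
      apply hd
      have h3 : (D : ℤ) = 4 * A * ff A B C j - (2 * A * j + B) ^ 2 := by linear_combination hk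
      have h4 : (p : ℤ) ∣ (D : ℤ) := by
        rw [h3]
        exact dvd_sub (Dvd.dvd.mul_left hj _) (Dvd.dvd.pow h2 two_ne_zero)
      exact_mod_cast h4
  · rintro ⟨a, ha⟩
    have hp0 : 0 < p := hp.pos
    have hdiv : A / p = a := by rw [ha]; exact Nat.mul_div_cancel_left a hp0
    rw [hdiv]
    have h5 : 4 * (a : ℤ) * (p * C) - B ^ 2 = D := by
      rw [← h, ha]; push_cast; ring
    rw [one p D a B (p * C) hp h4 hsf h5, hif]
    have h6 : p ∣ a ↔ p ^ 2 ∣ A := by
      rw [ha, sq]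
      exact (Nat.mul_dvd_mul_iff_left hp0).symm
    by_cases h7 : p ∣ a
    · rw [if_pos h7, if_pos (h6.mp h7)]
    · rw [if_neg h7, if_neg (fun h8 => h7 (h6.mpr h8))]

end Pool.Agent.H46.AD
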